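import Mathlib

namespace Pool.Agent.H.MP_14681b_lc

open Finset Filter Classical

noncomputable def avg (m : ℕ) (g : ℕ → ℝ) : ℝ := (∑ v ∈ range (2 ^ m), g v) / 2 ^ m

theorem avg_mono {m : ℕ} {g h : ℕ → ℝ} (H : ∀ v < 2 ^ m, g v ≤ h v) : avg m g ≤ avg m h :=
  div_le_div_of_nonneg_right (sum_le_sum fun v hv => H v (mem_range.1 hv)) (by positivity)

theorem avg_add (m : ℕ) (g h : ℕ → ℝ) : avg m (fun v => g v + h v) = avg m g + avg m h := by
  simp only [avg, sum_add_distrib, add_div]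

theorem avg_mul (m : ℕ) (c : ℝ) (g : ℕ → ℝ) : avg m (fun v => c * g v) = c * avg m g := by
  simp only [avg, ← mul_sum, mul_div_assoc]

theorem avg_const (m : ℕ) (c : ℝ) : avg m (fun _ => c) = c := by
  simp [avg]

theorem avg_half (m : ℕ) (g : ℕ → ℝ) : avg (m + 1) (fun v => g (v / 2)) = avg m g := by
  have : ∀ k, ∑ v ∈ range (k * 2), g (v / 2) = 2 * ∑ v ∈ range k, g v := fun k => by
    induction k with
    | zero => simp
    | succ k ih =>
      rw [add_mul, one_mul, sum_range_succ, sum_range_succ, ih, sum_range_succ,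
        show k * 2 / 2 = k by omega, show (k * 2 + 1) / 2 = k by omega]
      ring
  rw [avg, avg, pow_succ, this, pow_succ]
  field_simp

theorem avg_lift (m j : ℕ) (g : ℕ → ℝ) : avg (m + j) (fun v => g (v / 2 ^ j)) = avg m g := by
  induction j with
  | zero => simp
  | succ j ih =>
    rw [← ih, ← avg_half (m + j)]
    simp only [Nat.div_div_eq_div_mul, pow_succ', add_assoc]

/-- the value at level `m` of a function given at level `l` -/
def up (l : ℕ) (f : ℕ → ℝ) (m v : ℕ) : ℝ := f (v / 2 ^ (m - l))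

theorem up_up {l k m : ℕ} (h1 : l ≤ k) (h2 : k ≤ m) (f : ℕ → ℝ) : up k (up l f k) m = up l f m := by
  funext v
  simp only [up, Nat.div_div_eq_div_mul, ← pow_add]
  rw [show m - k + (k - l) = m - l by omega]

theorem up_self (l : ℕ) (f : ℕ → ℝ) : up l f l = f := by
  funext v
  simp [up]

theorem avg_up {l m : ℕ} (h : l ≤ m) (f : ℕ → ℝ) : avg m (up l f m) = avg l f := by
  obtain ⟨j, rfl⟩ := Nat.exists_eq_add_of_le h
  unfold up
  rw [Nat.add_sub_cancel_left, avg_lift]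

variable (β : ℕ → ℕ → Prop)

noncomputable def ind (n v : ℕ) : ℝ := if β n v then 1 else 0

noncomputable def psi (n m : ℕ) (g : ℕ → ℝ) : ℝ :=
  avg m fun v => g v / 2 + up n (ind β n) m v * (1 - g v)

theorem psi_up {n k m : ℕ} (h1 : n ≤ k) (h2 : k ≤ m) (g : ℕ → ℝ) :
    psi β n m (up k g m) = psi β n k g := by
  rw [psi, psi, ← avg_up h2, ← up_up h1 h2]
  rfl

def Edge (l k u v : ℕ) : Prop := ∀ n, l ≤ n → n ≤ k → β n (u / 2 ^ (k - n)) ∨ β n (v / 2 ^ (k - n))

theorem greedy (l k : ℕ) (f : ℕ → ℝ) (h0 : ∀ v, 0 ≤ f v) (h1 : ∀ v, f v ≤ 1)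
    (E : Finset (ℕ × ℕ)) (hE : ∀ e ∈ E, e.1 < 2 ^ k ∧ e.2 < 2 ^ k ∧ Edge β l k e.1 e.2) :
    ∃ g : ℕ → ℝ, (∀ v, f v ≤ g v ∧ g v ≤ 1) ∧ (∀ e ∈ E, 1 ≤ g e.1 + g e.2) ∧
      ∀ n, l ≤ n → n ≤ k → psi β n k g ≤ psi β n k f := by
  induction E using Finset.induction_on with
  | empty => exact ⟨f, fun v => ⟨le_rfl, h1 v⟩, by simp, fun _ _ _ => le_rfl⟩
  | insert e E _ ih =>
    obtain ⟨g, g1, g2, g3⟩ := ih fun e he => hE e (mem_insert_of_mem he)
    obtain ⟨x, y⟩ := e
    obtain ⟨e1, e2, e3⟩ := hE _ (mem_insert_self _ _)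
    by_cases c : 1 ≤ g x + g y
    · exact ⟨g, g1, by simpa [c] using g2, g3⟩
    obtain ⟨t, ht⟩ : ∃ t, t = (1 - g x - g y) / 2 := ⟨_, rfl⟩
    have t0 : 0 ≤ t := by linarith
    have gx := (h0 x).trans (g1 x).1
    have gy := (h0 y).trans (g1 y).1
    have i0 : ∀ a b : ℕ, 0 ≤ if a = b then t else 0 := fun a b => by split_ifs; exacts [t0, le_rfl]
    refine ⟨fun v => g v + ((if v = x then t else 0) + if v = y then t else 0), fun v => ⟨?_, ?_⟩,
      fun e he => ?_, fun n n1 n2 => le_trans ?_ (g3 n n1 n2)⟩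
    · beta_reduce
      linarith [(g1 v).1, i0 v x, i0 v y]
    · have := (g1 v).2
      beta_reduce
      split_ifs with c1 c2 c2 <;> (try subst c1) <;> (try subst c2) <;> linarith
    · rcases mem_insert.1 he with rfl | he
      · simp only [if_true]
        linarith [i0 x y, i0 y x]
      · beta_reduce
        linarith [g2 e he, i0 e.1 x, i0 e.1 y, i0 e.2 x, i0 e.2 y]
    · have a1 : ∀ v, (g v + ((if v = x then t else 0) + if v = y then t else 0)) / 2 +
          up n (ind β n) k v * (1 - (g v + ((if v = x then t else 0) + if v = y then t else 0))) =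
          g v / 2 + up n (ind β n) k v * (1 - g v) +
            ((if v = x then t * (1 / 2 - up n (ind β n) k v) else 0) +
              if v = y then t * (1 / 2 - up n (ind β n) k v) else 0) := fun v => by
        split_ifs <;> ring
      simp only [psi, a1, avg_add _ (fun v => g v / 2 + up n (ind β n) k v * (1 - g v)),
        add_le_iff_nonpos_right]
      refine div_nonpos_of_nonpos_of_nonneg ?_ (by positivity)
      rw [sum_add_distrib, sum_ite_eq', sum_ite_eq', if_pos (mem_range.2 e1), if_pos (mem_range.2 e2),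
        ← mul_add]
      refine mul_nonpos_of_nonneg_of_nonpos t0 ?_
      have := e3 n n1 n2
      simp only [up, ind]
      split_ifs <;> first | (norm_num; done) | tauto

def Good (l : ℕ) (f : ℕ → ℝ) (θ : ℝ) (k j : ℕ) (g : ℕ → ℝ) : Prop :=
  l ≤ j ∧ k ≤ j ∧ (∀ v, up l f j v ≤ g v ∧ g v ≤ 1) ∧
    (∀ u < 2 ^ j, ∀ v < 2 ^ j, Edge β l j u v → 1 ≤ g u + g v) ∧
      ∀ n, l ≤ n → n ≤ k → psi β n j g ≤ θ

theorem Good.lift {l f θ k j g} (h : Good β l f θ k j g) {m : ℕ} (hm : j ≤ m) :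
    Good β l f θ k m (up j g m) := by
  obtain ⟨h1, h2, h3, h4, h5⟩ := h
  have e : ∀ u < 2 ^ m, u / 2 ^ (m - j) < 2 ^ j := fun u hu => by
    rwa [Nat.div_lt_iff_lt_mul (by positivity), ← pow_add, Nat.add_sub_cancel' hm]
  refine ⟨h1.trans hm, h2.trans hm, fun v => ?_, fun u hu v hv E => h4 _ (e u hu) _ (e v hv)
    fun n n1 n2 => ?_, fun n n1 n2 => (psi_up β (n2.trans h2) hm g).trans_le (h5 n n1 n2)⟩
  · rw [← up_up h1 hm]
    exact h3 _
  · simp only [Nat.div_div_eq_div_mul, ← pow_add]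
    rw [show m - j + (j - n) = m - n by omega]
    exact E n n1 (n2.trans hm)

theorem step (l : ℕ) (f : ℕ → ℝ) (h0 : ∀ v, 0 ≤ f v) (h1 : ∀ v, f v ≤ 1) (θ δ : ℝ) (hδ : 0 < δ)
    (h : ∀ n ≥ l, psi β n n (up l f n) ≤ θ) : ∃ j g, Good β l f θ 0 j g ∧
      ∀ n ≥ j, psi β n n (up j g n) ≤ θ + δ := by
  let S : ℕ → Set ℝ := fun k => {r | ∃ j g, Good β l f θ k j g ∧ r = avg j fun v => g v ^ 2}
  have ne : ∀ k, (S k).Nonempty := fun k => by
    obtain ⟨g, g1, g2, g3⟩ := greedy β l (l + k) (up l f (l + k)) (fun _ => h0 _) (fun _ => h1 _)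
      {e ∈ range (2 ^ (l + k)) ×ˢ range (2 ^ (l + k)) | Edge β l (l + k) e.1 e.2} (by simp +contextual)
    refine ⟨_, l + k, g, ⟨by omega, by omega, g1, fun u hu v hv E => g2 (u, v) (by simp [*]),
      fun n n1 n2 => (g3 n n1 (by omega)).trans ?_⟩, rfl⟩
    rw [← up_up n1 (by omega : n ≤ l + k), psi_up β le_rfl (by omega)]
    exact h n n1
  have b0 : ∀ k, BddBelow (S k) := fun k => ⟨0, by
    rintro _ ⟨j, g, -, rfl⟩
    exact (avg_const j 0).ge.trans (avg_mono fun v _ => sq_nonneg _)⟩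
  have b1 : BddAbove (Set.range fun k => sInf (S k)) := ⟨1, by
    rintro _ ⟨k, rfl⟩
    obtain ⟨_, j, g, hg, rfl⟩ := ne k
    refine (csInf_le (b0 k) ⟨j, g, hg, rfl⟩).trans ((avg_mono fun v _ => ?_).trans (avg_const j 1).le)
    have := hg.2.2.1 v
    have := h0 (v / 2 ^ (j - l))
    unfold up at *
    nlinarith⟩
  have η : 0 < δ ^ 2 / 6 := by positivity
  obtain ⟨_, ⟨k, rfl⟩, hk⟩ := exists_lt_of_lt_csSup (Set.range_nonempty fun k => sInf (S k))
    (sub_lt_self _ η)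
  obtain ⟨_, ⟨j, g, hg, rfl⟩, r1⟩ := exists_lt_of_csInf_lt (ne k) (lt_add_of_pos_right _ η)
  refine ⟨j, g, ⟨hg.1, zero_le, hg.2.2.1, hg.2.2.2.1, fun n n1 n2 => hg.2.2.2.2 n n1 (by omega)⟩,
    fun n hn => ?_⟩
  obtain ⟨_, ⟨j', g', hg', rfl⟩, r2⟩ := exists_lt_of_csInf_lt (ne n) (lt_add_of_pos_right _ η)
  have r3 := le_csSup b1 (Set.mem_range_self n)
  have nj := hg'.2.1
  have a1 := hg.lift β (hn.trans nj)
  have a2 : avg j' (fun v => up j g j' v ^ 2) = avg j fun v => g v ^ 2 :=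
    avg_up (hn.trans nj) fun v => g v ^ 2
  rw [← psi_up β le_rfl nj, up_up hn nj]
  generalize up j g j' = g1 at a1 a2
  have a3 : Good β l f θ k j' fun v => (g1 v + g' v) / 2 := by
    refine ⟨a1.1, a1.2.1, fun v => ?_, fun u hu v hv E => ?_, fun m m1 m2 => ?_⟩
    · have := a1.2.2.1 v
      have := hg'.2.2.1 v
      constructor <;> linarith
    · linarith [a1.2.2.2.1 u hu v hv E, hg'.2.2.2.1 u hu v hv E]
    · have c1 := a1.2.2.2.2 m m1 m2
      have c2 := hg'.2.2.2.2 m m1 (m2.trans (hg.2.1.trans hn))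
      have : psi β m j' (fun v => (g1 v + g' v) / 2) =
          1 / 2 * psi β m j' g1 + 1 / 2 * psi β m j' g' := by
        simp only [psi, ← avg_mul, ← avg_add]
        congr 1
        funext v
        ring
      linarith
  have a4 := csInf_le (b0 k) ⟨j', _, a3, rfl⟩
  have a5 : psi β n j' g1 + 1 / δ * avg j' (fun v => ((g1 v + g' v) / 2) ^ 2) ≤ psi β n j' g' +
      (1 / (2 * δ) * avg j' (fun v => g1 v ^ 2) + 1 / (2 * δ) * avg j' (fun v => g' v ^ 2) + δ / 4) := by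
    rw [← avg_const j' (δ / 4)]
    simp only [psi, ← avg_mul, ← avg_add]
    refine avg_mono fun v _ => ?_
    have : 1 / (2 * δ) * g1 v ^ 2 + 1 / (2 * δ) * g' v ^ 2 - 1 / δ * ((g1 v + g' v) / 2) ^ 2 =
      (g1 v - g' v) ^ 2 / (4 * δ) := by field_simp; ring
    have c1 : ∀ x : ℝ, x / 2 ≤ x ^ 2 / (4 * δ) + δ / 4 := fun x => by
      rw [div_add_div _ _ (by positivity) (by positivity), div_le_div_iff₀ (by positivity)
        (by positivity)]
      nlinarith [sq_nonneg (x - δ)]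
    have c2 := c1 (g1 v - g' v)
    have c3 := c1 (g' v - g1 v)
    rw [sub_sq_comm] at c3
    simp only [up, ind]
    split_ifs <;> linarith
  have a6 := hg'.2.2.2.2 n (hg.1.trans hn) le_rfl
  rw [a2] at a5
  have a7 : 1 / (2 * δ) * avg j (fun v => g v ^ 2) + 1 / (2 * δ) * avg j' (fun v => g' v ^ 2) -
      1 / δ * avg j' (fun v => ((g1 v + g' v) / 2) ^ 2) ≤ δ / 4 := by
    have : 1 / δ = 2 * (1 / (2 * δ)) := by field_simp
    have e : δ / 4 = 1 / (2 * δ) * (δ ^ 2 / 2) := by field_simp; ring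
    rw [this, e, mul_comm (2 : ℝ) (1 / (2 * δ)), mul_assoc, ← mul_add, ← mul_sub]
    exact mul_le_mul_of_nonneg_left (by beta_reduce at hk; linarith) (by positivity)
  linarith

end Pool.Agent.H.MP_14681b_lc
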