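import Pool.Agent.H.MP_14681b_lc.Cover
import Pool.Agent.Lib.helper13.PR

namespace Pool.Agent.H.MP_14681b_lc

open Finset Filter Classical Pool.Agent.Lib.PR

attribute [local irreducible] Primrec

theorem limit (Q : ℕ → ℕ → ℕ → ℕ → ℕ → Prop)
    (hQ : Primrec fun p : ℕ × ℕ × ℕ × ℕ × ℕ => cd (Q p.1 p.2.1 p.2.2.1 p.2.2.2.1 p.2.2.2.2))
    (I : ℕ → ℕ → ℕ → Prop) (h0 : ∀ a, I a 0 0) (hs : ∀ a i s, I a i s → ∃ c, ∀ b, Q a i s c b)
    (hI : ∀ a i s c, (∀ b, Q a i s c b) → I a (i + 1) c) :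
    ∃ it : ℕ → ℕ → ℕ → ℕ, Primrec (fun p : ℕ × ℕ × ℕ => it p.1 p.2.1 p.2.2) ∧
      ∃ st : ℕ → ℕ → ℕ, (∀ a, st a 0 = 0) ∧ (∀ a i b, Q a i (st a i) (st a (i + 1)) b) ∧
        ∀ a i, ∀ᶠ t in atTop, it a t i = st a i := by
  obtain ⟨q, hq⟩ : ∃ q : ℕ → ℕ → ℕ → ℕ → ℕ → Bool, ∀ a i s c b, q a i s c b = cd (Q a i s c b) :=
    ⟨_, fun _ _ _ _ _ => rfl⟩
  simp only [← hq] at hQ
  let st : ℕ → ℕ → ℕ := fun a => Nat.rec 0 fun i s => sInf {c | ∀ b, Q a i s c b}
  have inv : ∀ a i, I a i (st a i) := fun a i => by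
    induction i with
    | zero => exact h0 a
    | succ i ih => exact hI _ _ _ _ (Nat.sInf_mem (hs _ _ _ ih))
  refine ⟨fun a t i => Nat.rec 0 (fun i s => (List.range t).findIdx fun c =>
    cd (∀ b < t, q a i s c b = true)) i, by fun_prop, st, fun _ => rfl,
    fun a i => Nat.sInf_mem (hs _ _ _ (inv a i)), fun a i => ?_⟩
  induction i with
  | zero => exact .of_forall fun _ => rfl
  | succ i ih =>
    have h1 : ∀ c < st a (i + 1), ∃ b, ¬ Q a i (st a i) c b := fun c hc =>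
      not_forall.1 (Nat.notMem_of_lt_sInf hc)
    choose! w hw using h1
    filter_upwards [ih, eventually_gt_atTop (st a (i + 1)), (eventually_all_finset
      (range (st a (i + 1)))).2 fun c _ => eventually_gt_atTop (w c)] with t e t1 t2
    rw [e, List.findIdx_eq (by simpa using t1)]
    simp only [List.getElem_range, hq, cd_true, Bool.eq_false_iff, ne_eq]
    exact ⟨fun b _ => Nat.sInf_mem (hs _ _ _ (inv a i)) b,
      fun c hc h => hw c hc (h _ (t2 c (mem_range.2 hc)))⟩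

def lv (s : ℕ) : ℕ := s.unpair.1
def M (e s v : ℕ) : ℕ := min ((Denumerable.ofNat (List ℕ) s.unpair.2).getD v 0) (2 ^ e)
noncomputable def F (e s v : ℕ) : ℝ := M e s v / 2 ^ e
noncomputable def th (d i : ℕ) : ℝ := (2 ^ (i + 1) - 1) / 2 ^ (d + i)

theorem M_le (e s v : ℕ) : M e s v ≤ 2 ^ e := min_le_right _ _
theorem F0 (e s v : ℕ) : 0 ≤ F e s v := by unfold F; positivity
theorem F1 (e s v : ℕ) : F e s v ≤ 1 := by
  rw [F, div_le_one (by positivity)]
  exact_mod_cast min_le_right _ _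

@[fun_prop] theorem p_lv : Primrec lv := by unfold lv; fun_prop
@[fun_prop] theorem p_M : Primrec fun p : ℕ × ℕ × ℕ => M p.1 p.2.1 p.2.2 := by unfold M; fun_prop

def Chk (N : ℕ → ℕ → ℕ → ℕ → Bool) (d i s c b : ℕ) : Prop :=
  lv s < lv c ∧ (∀ v < 2 ^ lv c, up (lv s) (F (d + i) s) (lv c) v ≤ F (d + (i + 1)) c v) ∧
    (∀ u < 2 ^ lv c, ∀ v < 2 ^ lv c, Edge (fun n v => N d n v b = true) (lv s) (lv c) u v →
      1 ≤ F (d + (i + 1)) c u + F (d + (i + 1)) c v) ∧
    psi (fun n v => N d n v b.unpair.2 = true) (lv c + b.unpair.1) (lv c + b.unpair.1)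
      (up (lv c) (F (d + (i + 1)) c) (lv c + b.unpair.1)) ≤ th d (i + 1)

theorem p_Chk {N : ℕ → ℕ → ℕ → ℕ → Bool}
    (h : Primrec fun p : ℕ × ℕ × ℕ × ℕ => N p.1 p.2.1 p.2.2.1 p.2.2.2) :
    Primrec fun p : ℕ × ℕ × ℕ × ℕ × ℕ => cd (Chk N p.1 p.2.1 p.2.2.1 p.2.2.2.1 p.2.2.2.2) := by
  have e : ∀ d i s c b, Chk N d i s c b ↔ lv s < lv c ∧
      (∀ v < 2 ^ lv c, 2 * M (d + i) s (v / 2 ^ (lv c - lv s)) ≤ M (d + (i + 1)) c v) ∧
      (∀ u < 2 ^ lv c, ∀ v < 2 ^ lv c, (∀ n ≤ lv c, lv s ≤ n → N d n (u / 2 ^ (lv c - n)) b = true ∨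
        N d n (v / 2 ^ (lv c - n)) b = true) →
          2 ^ (d + (i + 1)) ≤ M (d + (i + 1)) c u + M (d + (i + 1)) c v) ∧
      ∑ v ∈ range (2 ^ (lv c + b.unpair.1)), (if N d (lv c + b.unpair.1) v b.unpair.2 = true then
        2 * 2 ^ (d + (i + 1)) - M (d + (i + 1)) c (v / 2 ^ b.unpair.1)
        else M (d + (i + 1)) c (v / 2 ^ b.unpair.1)) + 2 * 2 ^ (lv c + b.unpair.1) ≤
          2 * 2 ^ (lv c + b.unpair.1) * 2 ^ (i + 1 + 1) := fun d i s c b => by
    refine and_congr Iff.rfl (and_congr (forall₂_congr fun v _ => ?_) (and_congr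
      (forall₄_congr fun u _ v _ => imp_congr (forall_congr' fun n => forall_comm) ?_) ?_))
    · rw [up, F, F, div_le_div_iff₀ (by positivity) (by positivity), ← add_assoc, pow_succ,
        ← mul_assoc, mul_right_comm, mul_le_mul_iff_left₀ (by positivity), mul_comm]
      norm_cast
    · rw [F, F, ← add_div, one_le_div (by positivity)]
      norm_cast
    · rw [← Nat.cast_le (α := ℝ), psi, avg, th, div_le_div_iff₀ (by positivity) (by positivity),
        sum_mul, ← mul_le_mul_iff_left₀ two_pos, sum_mul]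
      push_cast
      rw [← le_sub_iff_add_le]
      refine iff_of_eq (congrArg₂ _ (sum_congr rfl fun v _ => ?_) (by ring))
      simp only [up, ind, F, Nat.sub_self, pow_zero, Nat.div_one, Nat.add_sub_cancel_left]
      split_ifs
      · rw [Nat.cast_sub ((M_le _ _ _).trans (by omega))]
        push_cast
        field_simp
        ring
      · field_simp
        ring
  simp only [e]
  fun_prop

theorem psi_mono {β γ : ℕ → ℕ → Prop} {n : ℕ} (h : ∀ v < 2 ^ n, β n v → γ n v) {g : ℕ → ℝ}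
    (h1 : ∀ v, g v ≤ 1) : psi β n n g ≤ psi γ n n g := by
  refine avg_mono fun v hv => ?_
  have := h v hv
  have := h1 v
  simp only [up_self, ind]
  split_ifs <;> first | linarith | tauto

theorem avg_card (m : ℕ) (P : ℕ → Prop) [DecidablePred P] :
    avg m (fun v => if P v then 1 else 0) = #{v ∈ range (2 ^ m) | P v} * (1 / 2) ^ m := by
  rw [avg, sum_boole, one_div_pow, mul_one_div]

theorem test (β : ℕ → ℕ → ℕ → Prop) (hβ : REPred fun p : ℕ × ℕ × ℕ => β p.1 p.2.1 p.2.2)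
    (hc : ∀ d n, avg n (ind (β d) n) ≤ 1 / 2 ^ d) :
    ∃ T : ℕ → ℕ → ℕ → ℕ → ℕ → Bool,
      Primrec (fun p : ℕ × ℕ × ℕ × ℕ × ℕ => T p.1 p.2.1 p.2.2.1 p.2.2.2.1 p.2.2.2.2) ∧
      (∀ d (S : Finset (ℕ × ℕ)), (∀ p ∈ S, p.2 < 2 ^ p.1 ∧ ∃ a, ∀ b, T d p.1 p.2 a b = true) →
        ∑ p ∈ S, (1 / 2 : ℝ) ^ p.1 ≤ 8 / 2 ^ d) ∧
      ∀ d (x y : ℕ → ℕ), (∀ n, x n < 2 ^ n) → (∀ n, y n < 2 ^ n) →
        (∀ n m, n ≤ m → x m / 2 ^ (m - n) = x n) → (∀ n m, n ≤ m → y m / 2 ^ (m - n) = y n) →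
        (∀ᶠ n in atTop, β d n (x n) ∨ β d n (y n)) →
        (∃ n a, ∀ b, T d n (x n) a b = true) ∨ ∃ n a, ∀ b, T d n (y n) a b = true := by
  obtain ⟨N', n1, n2, n3, n4⟩ := re_bool hβ
  obtain ⟨N, hN⟩ : ∃ N : ℕ → ℕ → ℕ → ℕ → Bool, ∀ d n v t, N d n v t = N' (d, n, v) t :=
    ⟨_, fun _ _ _ _ => rfl⟩
  have m2 : ∀ d n v t, N d n v t = true → β d n v := fun d n v t h => n2 (d, n, v) t (hN .. ▸ h)
  have m3 : ∀ d n v, ∀ᶠ t in atTop, β d n v → N d n v t = true := fun d n v => by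
    by_cases h : β d n v
    · obtain ⟨t, ht⟩ := n4 (d, n, v) h
      filter_upwards [eventually_ge_atTop t] with t' h' _
      exact hN .. ▸ n3 _ _ _ h' ht
    · exact .of_forall fun _ h' => absurd h' h
  have inv : ∀ d i s c, (∀ b, Chk N d i s c b) →
      ∀ n ≥ lv c, psi (β d) n n (up (lv c) (F (d + (i + 1)) c) n) ≤ th d (i + 1) := by
    intro d i s c h n hn
    obtain ⟨k, rfl⟩ := Nat.exists_eq_add_of_le hn
    obtain ⟨t, ht⟩ := ((eventually_all_finset (range (2 ^ (lv c + k)))).2 fun v _ =>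
      m3 d (lv c + k) v).exists
    have := (h (Nat.pair k t)).2.2.2
    rw [Nat.unpair_pair] at this
    exact (psi_mono (fun v hv => ht v (mem_range.2 hv)) fun v => F1 _ _ _).trans this
  have z : ∀ e v, F e 0 v = 0 := fun e v => by simp [F, M]
  have i0 : ∀ d, ∀ n ≥ lv 0, psi (β d) n n (up (lv 0) (F (d + 0) 0) n) ≤ th d 0 := fun d n _ => by
    refine le_trans (le_of_eq ?_) ((hc d n).trans_eq (by norm_num [th]))
    simp only [psi, up, z, Nat.sub_self]
    simp
  obtain ⟨it, p1, st, s0, s1, s2⟩ := limit (Chk N) (p_Chk (by simp only [hN]; fun_prop))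
    (fun d i s => ∀ n ≥ lv s, psi (β d) n n (up (lv s) (F (d + i) s) n) ≤ th d i) i0
    (fun d i s h => by
      obtain ⟨j, g, g1, g2⟩ := step (β d) _ _ (F0 _ _) (F1 _ _) _ (1 / 2 ^ (d + (i + 1)) / 2)
        (by positivity) h
      have g3 := g1.lift _ j.le_succ
      have g4 : ∀ n ≥ j + 1, psi (β d) n n (up (j + 1) (up j g (j + 1)) n) ≤
          th d i + 1 / 2 ^ (d + (i + 1)) / 2 := fun n hn => by
        rw [up_up j.le_succ hn]
        exact g2 n (by omega)
      have lj := g1.1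
      generalize up j g j.succ = g' at g3 g4
      obtain ⟨c, c1, c2⟩ : ∃ c, lv c = j + 1 ∧ ∀ v < 2 ^ (j + 1), g' v ≤ F (d + (i + 1)) c v ∧
          F (d + (i + 1)) c v ≤ g' v + 1 / 2 ^ (d + (i + 1)) := by
        refine ⟨Nat.pair (j + 1) (Encodable.encode ((List.range (2 ^ (j + 1))).map fun v =>
          ⌈g' v * 2 ^ (d + (i + 1))⌉₊)), by simp [lv], fun v hv => ?_⟩
        have a0 : 0 ≤ g' v := (F0 _ _ _).trans (g3.2.2.1 v).1
        have a1 : ⌈g' v * 2 ^ (d + (i + 1))⌉₊ ≤ 2 ^ (d + (i + 1)) := Nat.ceil_le.2 (by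
          push_cast
          exact mul_le_of_le_one_left (by positivity) (g3.2.2.1 v).2)
        simp only [F, M, Nat.unpair_pair, Denumerable.ofNat_encode, List.getD_eq_getElem?_getD,
          List.getElem?_map, List.getElem?_range hv, Option.map_some, Option.getD_some,
          min_eq_left a1]
        rw [le_div_iff₀ (by positivity), div_le_iff₀ (by positivity), add_mul,
          one_div_mul_cancel (by positivity)]
        exact ⟨Nat.le_ceil _, (Nat.ceil_lt_add_one (by positivity)).le⟩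
      refine ⟨c, fun b => ⟨by omega, ?_, ?_, ?_⟩⟩ <;> rw [c1]
      · exact fun v hv => (g3.2.2.1 v).1.trans (c2 v hv).1
      · exact fun u hu v hv E => (g3.2.2.2.1 u hu v hv fun n a1 a2 =>
          (E n a1 a2).imp (m2 _ _ _ _) (m2 _ _ _ _)).trans (add_le_add (c2 u hu).1 (c2 v hv).1)
      · refine le_trans (psi_mono (γ := β d) (g := up _ _ _) (fun v _ => m2 _ _ _ _)
          fun v => F1 _ _ _) ?_
        have a1 := g4 (j + 1 + b.unpair.1) (by omega)
        have a2 : psi (β d) (j + 1 + b.unpair.1) (j + 1 + b.unpair.1)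
            (up (j + 1) (F (d + (i + 1)) c) (j + 1 + b.unpair.1)) ≤ psi (β d) (j + 1 + b.unpair.1)
            (j + 1 + b.unpair.1) (up (j + 1) g' (j + 1 + b.unpair.1)) + 1 / 2 ^ (d + (i + 1)) / 2 := by
          rw [← avg_const (j + 1 + b.unpair.1) (1 / 2 ^ (d + (i + 1)) / 2), psi, psi, ← avg_add]
          refine avg_mono fun v hv => ?_
          have := c2 (v / 2 ^ b.unpair.1) (by rwa [Nat.div_lt_iff_lt_mul (by positivity), ← pow_add])
          simp only [up, ind, Nat.add_sub_cancel_left]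
          split_ifs <;> linarith [show (0 : ℝ) < 1 / 2 ^ (d + (i + 1)) by positivity]
        have a3 : th d (i + 1) = th d i + 1 / 2 ^ (d + (i + 1)) := by
          simp only [th, ← add_assoc, pow_succ]
          field_simp
          ring
        linarith) inv
  have e : ∀ e s v, 1 / 2 ≤ F e s v ↔ 2 ^ e ≤ 2 * M e s v := fun e s v => by
    rw [F, div_le_div_iff₀ (by positivity) (by positivity), one_mul, mul_comm]
    norm_cast
  let New : ℕ → ℕ → ℕ → ℕ → ℕ → Prop := fun d i s c v =>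
    1 / 2 ≤ F (d + (i + 1)) c v ∧ ¬ 1 / 2 ≤ F (d + i) s (v / 2 ^ (lv c - lv s))
  refine ⟨fun d n v a b => cd (n = lv (it d (a.unpair.2 + b) (a.unpair.1 + 1)) ∧ New d a.unpair.1
    (it d (a.unpair.2 + b) a.unpair.1) (it d (a.unpair.2 + b) (a.unpair.1 + 1)) v),
    by simp only [New, e]; fun_prop, fun d S hS => ?_, fun d x y x1 y1 x2 y2 h => ?_⟩
  · have h1 : ∀ p ∈ S, ∃ i, p.1 = lv (st d (i + 1)) ∧ New d i (st d i) (st d (i + 1)) p.2 := by
      intro p hp
      obtain ⟨a, ha⟩ := (hS p hp).2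
      obtain ⟨b, hb⟩ := eventually_atTop.1 ((s2 d a.unpair.1).and (s2 d (a.unpair.1 + 1)))
      have := cd_true.1 (ha b)
      rw [(hb _ (Nat.le_add_left _ _)).1, (hb _ (Nat.le_add_left _ _)).2] at this
      exact ⟨_, this⟩
    choose! w w1 w2 using h1
    obtain ⟨K, hK⟩ : ∃ K, ∀ p ∈ S, w p < K := ⟨S.sup w + 1, fun p hp => Nat.lt_succ_of_le (le_sup hp)⟩
    let μ : ℕ → ℝ := fun i => avg (lv (st d i)) fun v => if 1 / 2 ≤ F (d + i) (st d i) v then 1 else 0
    refine le_trans (sum_le_sum_of_subset_of_nonneg (t := ((range K).sigma fun i =>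
      {v ∈ range (2 ^ lv (st d (i + 1))) | New d i (st d i) (st d (i + 1)) v}).image fun z =>
        (lv (st d (z.1 + 1)), z.2)) (fun p hp => mem_image.2 ⟨⟨w p, p.2⟩, ?_, Prod.ext (w1 p hp).symm
          rfl⟩) fun _ _ _ => by positivity) (le_trans (sum_image_le_of_nonneg fun _ _ => by
            positivity) ?_)
    · simp only [mem_sigma, mem_range, mem_filter, ← w1 p hp]
      exact ⟨hK p hp, (hS p hp).1, w2 p hp⟩
    rw [sum_sigma]
    refine (sum_le_sum (g := fun i => μ (i + 1) - μ i) fun i _ => ?_).trans ?_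
    · simp only [sum_const, nsmul_eq_mul, μ]
      rw [← avg_card, le_sub_iff_add_le, ← avg_up (s1 d i 0).1.le, ← avg_add]
      refine avg_mono fun v hv => ?_
      have := (s1 d i 0).2.1 v hv
      simp only [up, New] at this ⊢
      split_ifs with c1 c2 c3 c3 c2 c3 c3 <;> first | (norm_num; done) | tauto | linarith
    rw [sum_range_sub μ]
    have a1 : 0 ≤ μ 0 := (avg_const _ 0).ge.trans (avg_mono fun _ _ => by positivity)
    have a2 : psi (β d) (lv (st d K)) (lv (st d K))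
        (up (lv (st d K)) (F (d + K) (st d K)) (lv (st d K))) ≤ th d K := by
      cases K with
      | zero =>
        rw [s0]
        exact i0 d _ le_rfl
      | succ K => exact inv d K _ _ (s1 d K) _ le_rfl
    have a3 : μ K ≤ 4 * psi (β d) (lv (st d K)) (lv (st d K))
        (up (lv (st d K)) (F (d + K) (st d K)) (lv (st d K))) := by
      rw [psi, ← avg_mul]
      refine avg_mono fun v _ => ?_
      have := F0 (d + K) (st d K) v
      have := F1 (d + K) (st d K) v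
      simp only [up_self, ind]
      split_ifs <;> linarith
    have a4 : th d K ≤ 2 / 2 ^ d := by
      rw [th, div_le_div_iff₀ (by positivity) (by positivity), pow_add, pow_add]
      nlinarith [show (0 : ℝ) < 2 ^ d by positivity]
    have : (8 : ℝ) / 2 ^ d = 4 * (2 / 2 ^ d) := by ring
    linarith
  · have key : ∀ x : ℕ → ℕ, (∀ n m, n ≤ m → x m / 2 ^ (m - n) = x n) → ∀ i,
        1 / 2 ≤ F (d + i) (st d i) (x (lv (st d i))) → ∃ n a : ℕ, ∀ b : ℕ,
        cd (n = lv (it d (a.unpair.2 + b) (a.unpair.1 + 1)) ∧ New d a.unpair.1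
          (it d (a.unpair.2 + b) a.unpair.1) (it d (a.unpair.2 + b) (a.unpair.1 + 1)) (x n)) =
            true := fun x hx i => by
      induction i with
      | zero => exact fun h => by norm_num [s0, z] at h
      | succ i ih =>
        intro h
        by_cases c : 1 / 2 ≤ F (d + i) (st d i) (x (lv (st d i)))
        · exact ih c
        obtain ⟨t, ht⟩ := eventually_atTop.1 ((s2 d i).and (s2 d (i + 1)))
        refine ⟨lv (st d (i + 1)), Nat.pair i t, fun b => cd_true.2 ?_⟩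
        rw [Nat.unpair_pair, (ht _ (Nat.le_add_right _ _)).1, (ht _ (Nat.le_add_right _ _)).2]
        exact ⟨rfl, h, by rwa [hx _ _ (s1 d i 0).1.le]⟩
    obtain ⟨i, hi⟩ := eventually_atTop.1 h
    have a1 : i ≤ lv (st d i) := (strictMono_nat_of_lt_succ fun i => (s1 d i 0).1).le_apply
    obtain ⟨t, ht⟩ := ((eventually_all_finset (range (lv (st d (i + 1)) + 1))).2 fun n _ =>
      (m3 d n (x n)).and (m3 d n (y n))).exists
    have a2 := (s1 d i t).2.2.1 _ (x1 _) _ (y1 _) fun n b1 b2 => by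
      rw [x2 _ _ b2, y2 _ _ b2]
      have := ht n (mem_range.2 (by omega))
      exact (hi n (by omega)).imp this.1 this.2
    by_cases c : 1 / 2 ≤ F (d + (i + 1)) (st d (i + 1)) (x (lv (st d (i + 1))))
    exacts [Or.inl (key x x2 _ c), Or.inr (key y y2 (i + 1) (by linarith))]

end Pool.Agent.H.MP_14681b_lc
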